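import Mathlib

/-!
Bounded functionality of a hereditary class follows from bounded functionality of its prime
members.
-/

namespace Pool.Agent.Results.MP_42f001_co.PrimeFunctionality

open Finset

/-- Adjacency as a Boolean. -/
noncomputable def A {V : Type} (G : SimpleGraph V) (u v : V) : Bool :=
  @decide (G.Adj u v) (Classical.propDecidable _)

/-- `y` is a function of the vertices `x_1, ..., x_k` (all different from `y`). -/
def IsFunctionOf {V : Type} (G : SimpleGraph V) (y : V) {k : ℕ} (x : Fin k → V) : Prop :=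
  (∀ i, x i ≠ y) ∧ ∃ f : (Fin k → Bool) → Bool,
    ∀ z, z ≠ y → (∀ i, z ≠ x i) → A G y z = f (fun i => A G (x i) z)

/-- The functionality of a vertex: the least `k` such that it is a function of `k` vertices. -/
noncomputable def funVertex {V : Type} (G : SimpleGraph V) (y : V) : ℕ :=
  sInf {k | ∃ x : Fin k → V, IsFunctionOf G y x}

/-- The functionality of a graph: the maximum over nonempty induced subgraphs of the minimum
functionality of a vertex. -/
noncomputable def funGraph {V : Type} (G : SimpleGraph V) : ℕ :=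
  sSup {m | ∃ S : Set V, S.Nonempty ∧ m = ⨅ y : S, funVertex (G.induce S) y}

/-- Modules. -/
def IsModule {V : Type} (G : SimpleGraph V) (M : Set V) : Prop :=
  ∀ v ∉ M, (∀ m ∈ M, G.Adj v m) ∨ (∀ m ∈ M, ¬ G.Adj v m)

/-- Prime graphs: every module is empty, a singleton, or everything. -/
def IsPrime {V : Type} (G : SimpleGraph V) : Prop :=
  ∀ M : Set V, IsModule G M → M = ∅ ∨ M = Set.univ ∨ ∃ v, M = {v}

/-- Hereditary classes (closed under isomorphism and induced subgraphs). -/
def Hereditary (X : ∀ V : Type, SimpleGraph V → Prop) : Prop :=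
  ∀ (V W : Type) (G : SimpleGraph V) (H : SimpleGraph W), Nonempty (H ↪g G) → X V G → X W H

/-! ### Functions of sets of vertices -/

/-- Within the vertex set `W`, adjacency to `y` is determined by adjacency to `S`. -/
def FunIn {V : Type} (G : SimpleGraph V) (W : Finset V) (y : V) (S : Finset V) : Prop :=
  y ∈ W ∧ S ⊆ W ∧ y ∉ S ∧ ∀ z ∈ W, ∀ z' ∈ W, z ∉ S → z' ∉ S → z ≠ y → z' ≠ y →
    (∀ s ∈ S, (G.Adj s z ↔ G.Adj s z')) → (G.Adj y z ↔ G.Adj y z')

theorem exists_finset {V : Type} [Fintype V] {G : SimpleGraph V} {y : V} {k : ℕ}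
    {x : Fin k → V} (h : IsFunctionOf G y x) : ∃ S : Finset V, S.card ≤ k ∧ FunIn G univ y S := by
  classical
  obtain ⟨h1, f, hf⟩ := h
  refine ⟨univ.image x, (card_image_le).trans (by simp), mem_univ _, subset_univ _, ?_, ?_⟩
  · simp only [mem_image, mem_univ, true_and, not_exists]
    exact h1
  · intro z _ z' _ hz hz' hzy hz'y hs
    simp only [mem_image, mem_univ, true_and, not_exists] at hz hz' hs
    have e1 := hf z hzy (fun i => Ne.symm (hz i))
    have e2 := hf z' hz'y (fun i => Ne.symm (hz' i))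
    have e3 : (fun i => A G (x i) z) = fun i => A G (x i) z' := by
      ext1 i
      unfold A
      rw [decide_eq_decide]
      exact hs (x i) ⟨i, rfl⟩
    rw [e3, ← e2] at e1
    unfold A at e1
    rwa [decide_eq_decide] at e1

theorem exists_tuple {V : Type} [Fintype V] {G : SimpleGraph V} {y : V} {S : Finset V}
    (h : FunIn G univ y S) : ∃ x : Fin S.card → V, IsFunctionOf G y x := by
  classical
  obtain ⟨-, -, hy, h⟩ := h
  let e := S.equivFin.symm
  refine ⟨fun i => (e i : V), fun i hi => hy (hi ▸ (e i).2), ?_⟩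
  refine ⟨fun p => decide (∃ z, z ∉ S ∧ z ≠ y ∧ p = (fun i => A G (e i) z) ∧ G.Adj y z), ?_⟩
  intro z hzy hz
  have hzS : z ∉ S := by
    intro hzS
    have := hz (e.symm ⟨z, hzS⟩)
    simp at this
  have hpat : ∀ z z' : V, ((fun i => A G (e i : V) z) = fun i => A G (e i : V) z') →
      ∀ s ∈ S, (G.Adj s z ↔ G.Adj s z') := by
    intro z z' hh s hs
    have := congrFun hh (e.symm ⟨s, hs⟩)
    simp only [Equiv.apply_symm_apply] at this
    unfold A at this
    rwa [decide_eq_decide] at this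
  rw [A, decide_eq_decide]
  constructor
  · intro hadj
    exact ⟨z, hzS, hzy, rfl, hadj⟩
  · rintro ⟨z', hz'S, hz'y, hp, hadj⟩
    exact (h z (mem_univ _) z' (mem_univ _) hzS hz'S hzy hz'y (hpat z z' hp)).2 hadj

theorem funIn_all {V : Type} [Fintype V] (G : SimpleGraph V) (y : V) :
    ∃ S : Finset V, FunIn G univ y S := by
  classical
  refine ⟨univ.erase y, mem_univ _, subset_univ _, by simp, ?_⟩
  intro z _ z' _ hz hz' hzy
  simp [hzy] at hz

theorem funVertex_le {V : Type} [Fintype V] (G : SimpleGraph V) (y : V) (k : ℕ) :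
    funVertex G y ≤ k ↔ ∃ S : Finset V, S.card ≤ k ∧ FunIn G univ y S := by
  constructor
  · intro h
    have hne : {k | ∃ x : Fin k → V, IsFunctionOf G y x}.Nonempty := by
      obtain ⟨S, hS⟩ := funIn_all G y
      exact ⟨S.card, exists_tuple hS⟩
    obtain ⟨x, hx⟩ := Nat.sInf_mem hne
    obtain ⟨S, h1, h2⟩ := exists_finset hx
    exact ⟨S, h1.trans h, h2⟩
  · rintro ⟨S, h1, h2⟩
    exact (Nat.sInf_le (exists_tuple h2)).trans h1

theorem funGraph_le {V : Type} [Fintype V] (G : SimpleGraph V) (k : ℕ) :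
    funGraph G ≤ k ↔ ∀ S : Set V, S.Nonempty → ∃ y : S, funVertex (G.induce S) y ≤ k := by
  have hbdd : BddAbove {m | ∃ S : Set V, S.Nonempty ∧ m = ⨅ y : S, funVertex (G.induce S) y} := by
    have : {m | ∃ S : Set V, S.Nonempty ∧ m = ⨅ y : S, funVertex (G.induce S) y} ⊆
        Set.range (fun S : Set V => ⨅ y : S, funVertex (G.induce S) y) := by
      rintro m ⟨S, -, rfl⟩
      exact ⟨S, rfl⟩
    exact ((Set.finite_range _).subset this).bddAbove
  constructor
  · intro h S hS
    have h1 : (⨅ y : S, funVertex (G.induce S) y) ≤ k :=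
      (le_csSup hbdd ⟨S, hS, rfl⟩).trans h
    have : Nonempty S := hS.to_subtype
    obtain ⟨y, hy⟩ := Nat.sInf_mem (Set.range_nonempty (fun y : S => funVertex (G.induce S) y))
    exact ⟨y, by rw [show funVertex (G.induce S) y = _ from hy]; exact h1⟩
  · intro h
    apply csSup_le'
    rintro m ⟨S, hS, rfl⟩
    obtain ⟨y, hy⟩ := h S hS
    exact (ciInf_le (OrderBot.bddBelow _) y).trans hy

/-- Transport along an embedding. -/
theorem FunIn.map {V W : Type} [Fintype W] [DecidableEq V] {G : SimpleGraph V} {H : SimpleGraph W}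
    (φ : W ↪ V) (hφ : ∀ a b, H.Adj a b ↔ G.Adj (φ a) (φ b)) {y : W} {S : Finset W}
    (h : FunIn H univ y S) : FunIn G (univ.map φ) (φ y) (S.map φ) := by
  obtain ⟨-, -, hy, h⟩ := h
  refine ⟨mem_map_of_mem _ (mem_univ _), map_subset_map.2 (subset_univ _), ?_, ?_⟩
  · simpa using hy
  · intro z hz z' hz' hzS hz'S hzy hz'y hs
    obtain ⟨a, -, rfl⟩ := mem_map.1 hz
    obtain ⟨b, -, rfl⟩ := mem_map.1 hz'
    rw [← hφ, ← hφ]
    refine h a (mem_univ _) b (mem_univ _) ?_ ?_ ?_ ?_ ?_
    · simpa using hzS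
    · simpa using hz'S
    · rintro rfl; exact hzy rfl
    · rintro rfl; exact hz'y rfl
    · intro s hs'
      rw [hφ, hφ]
      exact hs _ (mem_map_of_mem _ hs')

section peel

variable {V : Type} [Fintype V] [DecidableEq V] {G : SimpleGraph V} {M : Finset V} {k : ℕ}

/-- value `0` at the all-zero pattern is admissible -/
def ZZ (G : SimpleGraph V) (M : Finset V) (y : V) (T : Finset V) : Prop :=
  ∀ z ∈ M, z ∉ T → z ≠ y → (∀ t ∈ T, ¬ G.Adj t z) → ¬ G.Adj y z

/-- value `1` at the all-one pattern is admissible -/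
def OO (G : SimpleGraph V) (M : Finset V) (y : V) (T : Finset V) : Prop :=
  ∀ z ∈ M, z ∉ T → z ≠ y → (∀ t ∈ T, G.Adj t z) → G.Adj y z

def Dm (G : SimpleGraph V) (M : Finset V) (D : Finset V) : Prop :=
  ∀ z ∈ M, z ∉ D → ∃ d ∈ D, G.Adj d z

def Cm (G : SimpleGraph V) (M : Finset V) (D : Finset V) : Prop :=
  ∀ z ∈ M, z ∉ D → ∃ d ∈ D, ¬ G.Adj d z

omit [Fintype V] in
theorem stage (hk : ∀ W ⊆ M, W.Nonempty → ∃ y S, S.card ≤ k ∧ FunIn G W y S)
    {D : Finset V} (hD : D ⊆ M) (hne : (M \ D).Nonempty) :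
    ∃ y T, D ⊆ T ∧ T.card ≤ D.card + k ∧ FunIn G M y T ∧
      (ZZ G M y T ∨ Dm G M (insert y T)) ∧ (OO G M y T ∨ Cm G M (insert y T)) ∧
      (Dm G M D → ZZ G M y T) ∧ (Cm G M D → OO G M y T) := by
  obtain ⟨y, S, hS, hyW, hSW, hyS, hf⟩ := hk (M \ D) sdiff_subset hne
  rw [mem_sdiff] at hyW
  have hSM : S ⊆ M := hSW.trans sdiff_subset
  refine ⟨y, D ∪ S, subset_union_left, (card_union_le _ _).trans (by omega),
    ⟨hyW.1, union_subset hD hSM, by simp [hyW.2, hyS], ?_⟩, ?_, ?_, ?_, ?_⟩
  · intro z hz z' hz' hzT hz'T hzy hz'y hs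
    simp only [mem_union, not_or] at hzT hz'T
    exact hf z (mem_sdiff.2 ⟨hz, hzT.1⟩) z' (mem_sdiff.2 ⟨hz', hz'T.1⟩) hzT.2 hz'T.2 hzy hz'y
      (fun s hs' => hs s (mem_union_right _ hs'))
  · by_cases hc : ∃ z0 ∈ M, z0 ∉ D ∪ S ∧ z0 ≠ y ∧ (∀ t ∈ S, ¬ G.Adj t z0) ∧ G.Adj y z0
    · right
      obtain ⟨z0, hz0, hz0T, hz0y, hz0s, hz0a⟩ := hc
      simp only [mem_union, not_or] at hz0T
      intro z hz hzT
      simp only [mem_insert, mem_union, not_or] at hzT
      by_contra hno
      push Not at hno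
      have h1 : ∀ t ∈ S, ¬ G.Adj t z := fun t ht => hno t (by simp [ht])
      have h2 : ¬ G.Adj y z := hno y (by simp)
      apply h2
      exact (hf z (mem_sdiff.2 ⟨hz, hzT.2.1⟩) z0 (mem_sdiff.2 ⟨hz0, hz0T.1⟩) hzT.2.2 hz0T.2
        hzT.1 hz0y (fun s hs => iff_of_false (h1 s hs) (hz0s s hs))).2 hz0a
    · left
      push Not at hc
      intro z hz hzT hzy hs
      exact hc z hz hzT hzy (fun t ht => hs t (mem_union_right _ ht))
  · by_cases hc : ∃ z0 ∈ M, z0 ∉ D ∪ S ∧ z0 ≠ y ∧ (∀ t ∈ S, G.Adj t z0) ∧ ¬ G.Adj y z0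
    · right
      obtain ⟨z0, hz0, hz0T, hz0y, hz0s, hz0a⟩ := hc
      simp only [mem_union, not_or] at hz0T
      intro z hz hzT
      simp only [mem_insert, mem_union, not_or] at hzT
      by_contra hno
      push Not at hno
      have h1 : ∀ t ∈ S, G.Adj t z := fun t ht => hno t (by simp [ht])
      have h2 : G.Adj y z := hno y (by simp)
      apply hz0a
      exact (hf z (mem_sdiff.2 ⟨hz, hzT.2.1⟩) z0 (mem_sdiff.2 ⟨hz0, hz0T.1⟩) hzT.2.2 hz0T.2
        hzT.1 hz0y (fun s hs => iff_of_true (h1 s hs) (hz0s s hs))).1 h2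
    · left
      push Not at hc
      intro z hz hzT hzy hs
      exact hc z hz hzT hzy (fun t ht => hs t (mem_union_right _ ht))
  · intro hDm z hz hzT _ hs
    simp only [mem_union, not_or] at hzT
    obtain ⟨d, hd, hadj⟩ := hDm z hz hzT.1
    exact absurd hadj (hs d (mem_union_left _ hd))
  · intro hCm z hz hzT _ hs
    simp only [mem_union, not_or] at hzT
    obtain ⟨d, hd, hadj⟩ := hCm z hz hzT.1
    exact absurd (hs d (mem_union_left _ hd)) hadj

/-- Functions inside a module that respect constants are functions in the graph. -/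
theorem finish (hM : IsModule G (M : Set V)) {y : V} {T : Finset V} (hT : T.Nonempty)
    (hf : FunIn G M y T) (hZ : ZZ G M y T) (hO : OO G M y T) : FunIn G univ y T := by
  obtain ⟨hy, hTM, hyT, hf⟩ := hf
  obtain ⟨t0, ht0⟩ := hT
  have mixed : ∀ z ∈ M, ∀ z' ∉ M, z ∉ T → z ≠ y → (∀ s ∈ T, (G.Adj s z ↔ G.Adj s z')) →
      (G.Adj y z ↔ G.Adj y z') := by
    intro z hz z' hz' hzT hzy hs
    rcases hM z' (by simpa using hz') with h | h
    · have h1 : ∀ s ∈ T, G.Adj s z := fun s hs' => (hs s hs').2 (h s (by simpa using hTM hs')).symm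
      exact iff_of_true (hO z hz hzT hzy h1) (h y (by simpa using hy)).symm
    · have h1 : ∀ s ∈ T, ¬ G.Adj s z := fun s hs' hadj =>
        h s (by simpa using hTM hs') ((hs s hs').1 hadj).symm
      exact iff_of_false (hZ z hz hzT hzy h1) (fun hadj => h y (by simpa using hy) hadj.symm)
  refine ⟨mem_univ _, subset_univ _, hyT, ?_⟩
  intro z _ z' _ hzT hz'T hzy hz'y hs
  by_cases hz : z ∈ M <;> by_cases hz' : z' ∈ M
  · exact hf z hz z' hz' hzT hz'T hzy hz'y hs
  · exact mixed z hz z' hz' hzT hzy hs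
  · exact (mixed z' hz' z hz hz'T hz'y (fun s hs' => (hs s hs').symm)).symm
  · have key : ∀ w ∉ M, (G.Adj y w ↔ G.Adj t0 w) := by
      intro w hw
      rcases hM w (by simpa using hw) with h | h
      · exact iff_of_true (h y (by simpa using hy)).symm (h t0 (by simpa using hTM ht0)).symm
      · exact iff_of_false (fun hadj => h y (by simpa using hy) hadj.symm)
          (fun hadj => h t0 (by simpa using hTM ht0) hadj.symm)
    rw [key z hz, key z' hz', hs t0 ht0]

omit [Fintype V] [DecidableEq V] in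
theorem logic {Z0 O0 D1 C1 Z1 O1 D2 C2 Z2 O2 : Prop} (z0 : Z0 ∨ D1) (o0 : O0 ∨ C1)
    (h0 : ¬ (Z0 ∧ O0)) (z1 : Z1 ∨ D2) (o1 : O1 ∨ C2) (d1 : D1 → Z1) (e1 : C1 → O1)
    (h1 : ¬ (Z1 ∧ O1)) (m1 : D1 → D2) (m2 : C1 → C2) (d2 : D2 → Z2) (e2 : C2 → O2) :
    Z2 ∧ O2 := by tauto

theorem small (hM : IsModule G (M : Set V)) (hM2 : 2 ≤ M.card) (hc : M.card ≤ 2 * k + 2) :
    ∃ y T, T.card ≤ 3 * k + 2 ∧ FunIn G univ y T := by
  obtain ⟨y, hy⟩ : M.Nonempty := card_pos.1 (by omega)
  have hcard : (M.erase y).card = M.card - 1 := card_erase_of_mem hy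
  refine ⟨y, M.erase y, by omega, finish hM (card_pos.1 (by omega))
    ⟨hy, erase_subset _ _, by simp, ?_⟩ ?_ ?_⟩
  · intro z hz z' _ hzT _ hzy
    exact absurd (mem_erase.2 ⟨hzy, hz⟩) hzT
  · intro z hz hzT hzy
    exact absurd (mem_erase.2 ⟨hzy, hz⟩) hzT
  · intro z hz hzT hzy
    exact absurd (mem_erase.2 ⟨hzy, hz⟩) hzT

theorem peel (hM : IsModule G (M : Set V)) (hM2 : 2 ≤ M.card)
    (hk : ∀ W ⊆ M, W.Nonempty → ∃ y S, S.card ≤ k ∧ FunIn G W y S) :
    ∃ y T, T.card ≤ 3 * k + 2 ∧ FunIn G univ y T := by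
  by_cases hsmall : M.card ≤ 2 * k + 2
  · exact small hM hM2 hsmall
  have hne : ∀ D : Finset V, D ⊆ M → D.card ≤ 2 * k + 2 → (M \ D).Nonempty := by
    intro D hD hc
    rw [sdiff_nonempty]
    intro h
    have := card_le_card h
    omega
  obtain ⟨y0, T0, -, c0, f0, z0, o0, -, -⟩ := stage hk (empty_subset M) (hne ∅ (empty_subset M)
    (by simp))
  simp only [card_empty, zero_add] at c0
  by_cases hT0 : T0.Nonempty
  · by_cases h0 : ZZ G M y0 T0 ∧ OO G M y0 T0
    · exact ⟨y0, T0, by omega, finish hM hT0 f0 h0.1 h0.2⟩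
    have hD1 : insert y0 T0 ⊆ M := insert_subset f0.1 f0.2.1
    have c1 : (insert y0 T0).card ≤ k + 1 := (card_insert_le _ _).trans (by omega)
    obtain ⟨y1, T1, s1, c1', f1, z1, o1, d1, e1⟩ := stage hk hD1 (hne _ hD1 (by omega))
    have hT1 : T1.Nonempty := ⟨y0, s1 (mem_insert_self _ _)⟩
    by_cases h1 : ZZ G M y1 T1 ∧ OO G M y1 T1
    · exact ⟨y1, T1, by omega, finish hM hT1 f1 h1.1 h1.2⟩
    have hD2 : insert y1 T1 ⊆ M := insert_subset f1.1 f1.2.1
    have c2 : (insert y1 T1).card ≤ 2 * k + 2 := (card_insert_le _ _).trans (by omega)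
    obtain ⟨y2, T2, s2, c2', f2, z2, o2, d2, e2⟩ := stage hk hD2 (hne _ hD2 c2)
    have hT2 : T2.Nonempty := ⟨y1, s2 (mem_insert_self _ _)⟩
    have mono1 : Dm G M (insert y0 T0) → Dm G M (insert y1 T1) := by
      intro h z hz hzT
      obtain ⟨d, hd, hadj⟩ := h z hz (fun hc => hzT (mem_insert_of_mem (s1 hc)))
      exact ⟨d, mem_insert_of_mem (s1 hd), hadj⟩
    have mono2 : Cm G M (insert y0 T0) → Cm G M (insert y1 T1) := by
      intro h z hz hzT
      obtain ⟨d, hd, hadj⟩ := h z hz (fun hc => hzT (mem_insert_of_mem (s1 hc)))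
      exact ⟨d, mem_insert_of_mem (s1 hd), hadj⟩
    have h2 := logic z0 o0 h0 z1 o1 d1 e1 h1 mono1 mono2 d2 e2
    exact ⟨y2, T2, by omega, finish hM hT2 f2 h2.1 h2.2⟩
  · -- constant function: `insert y0 ∅` has one of the two properties
    rw [not_nonempty_iff_eq_empty] at hT0
    subst hT0
    have hD1 : insert y0 (∅ : Finset V) ⊆ M := insert_subset f0.1 f0.2.1
    have c1 : (insert y0 (∅ : Finset V)).card ≤ k + 1 := (card_insert_le _ _).trans (by simp)
    have h0 : ¬ (ZZ G M y0 ∅ ∧ OO G M y0 ∅) := by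
      rintro ⟨hz, ho⟩
      obtain ⟨w, hw⟩ := hne _ hD1 (by omega)
      simp only [mem_sdiff, mem_insert, notMem_empty, or_false] at hw
      exact hz w hw.1 (notMem_empty _) hw.2 (by simp)
        (ho w hw.1 (notMem_empty _) hw.2 (by simp))
    obtain ⟨y1, T1, s1, c1', f1, z1, o1, d1, e1⟩ := stage hk hD1 (hne _ hD1 (by omega))
    have hT1 : T1.Nonempty := ⟨y0, s1 (mem_insert_self _ _)⟩
    by_cases h1 : ZZ G M y1 T1 ∧ OO G M y1 T1
    · exact ⟨y1, T1, by omega, finish hM hT1 f1 h1.1 h1.2⟩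
    have hD2 : insert y1 T1 ⊆ M := insert_subset f1.1 f1.2.1
    have c2 : (insert y1 T1).card ≤ 2 * k + 2 := (card_insert_le _ _).trans (by omega)
    obtain ⟨y2, T2, s2, c2', f2, z2, o2, d2, e2⟩ := stage hk hD2 (hne _ hD2 c2)
    have hT2 : T2.Nonempty := ⟨y1, s2 (mem_insert_self _ _)⟩
    have mono1 : Dm G M (insert y0 ∅) → Dm G M (insert y1 T1) := by
      intro h z hz hzT
      obtain ⟨d, hd, hadj⟩ := h z hz (fun hc => hzT (mem_insert_of_mem (s1 hc)))
      exact ⟨d, mem_insert_of_mem (s1 hd), hadj⟩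
    have mono2 : Cm G M (insert y0 ∅) → Cm G M (insert y1 T1) := by
      intro h z hz hzT
      obtain ⟨d, hd, hadj⟩ := h z hz (fun hc => hzT (mem_insert_of_mem (s1 hc)))
      exact ⟨d, mem_insert_of_mem (s1 hd), hadj⟩
    have h2 := logic z0 o0 h0 z1 o1 d1 e1 h1 mono1 mono2 d2 e2
    exact ⟨y2, T2, by omega, finish hM hT2 f2 h2.1 h2.2⟩

end peel

/-- From a bound on `funGraph` to functions inside every vertex subset of the image. -/
theorem funIn_of_funGraph {V W : Type} [Fintype W] [DecidableEq V] {G : SimpleGraph V}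
    {H : SimpleGraph W} (φ : W ↪ V) (hφ : ∀ a b, H.Adj a b ↔ G.Adj (φ a) (φ b)) {k : ℕ}
    (hk : funGraph H ≤ k) (U : Finset V) (hU : U ⊆ univ.map φ) (hne : U.Nonempty) :
    ∃ y S, S.card ≤ k ∧ FunIn G U y S := by
  classical
  let S0 : Set W := {w | φ w ∈ U}
  have hS0 : S0.Nonempty := by
    obtain ⟨u, hu⟩ := hne
    obtain ⟨w, -, rfl⟩ := mem_map.1 (hU hu)
    exact ⟨w, hu⟩
  obtain ⟨y, hy⟩ := (funGraph_le H k).1 hk S0 hS0
  obtain ⟨S, hS, hf⟩ := (funVertex_le _ _ _).1 hy
  let ψ : S0 ↪ V := (Function.Embedding.subtype _).trans φ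
  have h1 := hf.map (G := G) ψ (fun a b => hφ a b)
  have h2 : (univ : Finset S0).map ψ = U := by
    ext u
    simp only [mem_map, mem_univ, true_and]
    constructor
    · rintro ⟨a, rfl⟩
      exact a.2
    · intro hu
      obtain ⟨w, -, rfl⟩ := mem_map.1 (hU hu)
      exact ⟨⟨w, hu⟩, rfl⟩
  rw [h2] at h1
  exact ⟨_, _, by rw [card_map]; exact hS, h1⟩

/-- Every nonempty member of the class has a vertex of small functionality. -/
theorem vertex {X : ∀ V : Type, SimpleGraph V → Prop} (hX : Hereditary X) {k : ℕ}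
    (hk : ∀ (V : Type) [Fintype V] (G : SimpleGraph V), X V G → IsPrime G → funGraph G ≤ k)
    (V : Type) [Fintype V] [Nonempty V] (G : SimpleGraph V) (hG : X V G) :
    ∃ y, funVertex G y ≤ 3 * k + 2 := by
  classical
  by_cases hp : IsPrime G
  · have h1 := hk V G hG hp
    obtain ⟨y, S, hS, hf⟩ := funIn_of_funGraph (G := G) (Function.Embedding.refl V)
      (fun a b => Iff.rfl) h1 univ (by simp) univ_nonempty
    exact ⟨y, (funVertex_le _ _ _).2 ⟨S, by omega, hf⟩⟩
  · -- a minimal nontrivial module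
    have hex : ∃ n : ℕ, ∃ M : Finset V, M.card = n ∧ IsModule G (M : Set V) ∧ 2 ≤ M.card ∧
        M ≠ univ := by
      unfold IsPrime at hp
      push Not at hp
      obtain ⟨M, hM, hM0, hM1, hM2⟩ := hp
      refine ⟨_, M.toFinset, rfl, by simpa using hM, ?_, ?_⟩
      · by_contra hlt
        have : M.toFinset.card = 0 ∨ M.toFinset.card = 1 := by omega
        rcases this with h | h
        · rw [card_eq_zero, Set.toFinset_eq_empty] at h
          exact hM0.ne_empty h
        · obtain ⟨v, hv⟩ := card_eq_one.1 h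
          apply hM2 v
          rw [← Set.coe_toFinset M, hv, coe_singleton]
      · intro h
        exact hM1 (by rwa [Set.toFinset_eq_univ] at h)
    obtain ⟨M, hMc, hM, hM2, hMu⟩ := Nat.find_spec hex
    have hmin : ∀ N : Finset V, IsModule G (N : Set V) → 2 ≤ N.card → N ≠ univ →
        M.card ≤ N.card := by
      intro N h1 h2 h3
      rw [hMc]
      exact Nat.find_min' hex ⟨N, rfl, h1, h2, h3⟩
    -- the induced subgraph is prime
    have hprime : IsPrime (G.induce (M : Set V)) := by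
      intro N hN
      by_contra hno
      push Not at hno
      obtain ⟨hN0, hN1, hN2⟩ := hno
      let N' : Finset V := N.toFinset.map (Function.Embedding.subtype _)
      have hN'M : N' ⊆ M := by
        intro v hv
        obtain ⟨a, -, rfl⟩ := mem_map.1 hv
        exact a.2
      have hmem : ∀ a : (M : Set V), a ∈ N ↔ (a : V) ∈ N' := by
        intro a
        simp [N']
      have hN'card : 2 ≤ N'.card := by
        have hcc : N'.card = N.toFinset.card := card_map _
        rw [hcc]
        by_contra hlt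
        have : N.toFinset.card = 0 ∨ N.toFinset.card = 1 := by omega
        rcases this with h | h
        · rw [card_eq_zero, Set.toFinset_eq_empty] at h
          exact hN0.ne_empty h
        · obtain ⟨v, hv⟩ := card_eq_one.1 h
          apply hN2 v
          rw [← Set.coe_toFinset N, hv, coe_singleton]
      have hN'mod : IsModule G (N' : Set V) := by
        intro v hv
        by_cases hvM : v ∈ M
        · rcases hN ⟨v, hvM⟩ (fun h => hv (by simpa using (hmem _).1 h)) with h | h
          · left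
            intro m hm
            have hm' : m ∈ M := hN'M (by simpa using hm)
            exact h ⟨m, hm'⟩ ((hmem _).2 (by simpa using hm))
          · right
            intro m hm
            have hm' : m ∈ M := hN'M (by simpa using hm)
            exact h ⟨m, hm'⟩ ((hmem _).2 (by simpa using hm))
        · rcases hM v (by simpa using hvM) with h | h
          · left
            intro m hm
            exact h m (hN'M (by simpa using hm))
          · right
            intro m hm
            exact h m (hN'M (by simpa using hm))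
      have hN'u : N' ≠ univ := by
        intro h
        apply hMu
        rw [eq_univ_iff_forall]
        intro v
        exact hN'M (h ▸ mem_univ v)
      have hle := hmin N' hN'mod hN'card hN'u
      have heq : N' = M := eq_of_subset_of_card_le hN'M hle
      apply hN1
      ext a
      simp only [Set.mem_univ, iff_true]
      rw [hmem, heq]
      exact a.2
    have hXM : X _ (G.induce (M : Set V)) := hX _ _ G _ ⟨SimpleGraph.Embedding.induce _⟩ hG
    have hkM : funGraph (G.induce (M : Set V)) ≤ k := hk _ _ hXM hprime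
    obtain ⟨y, T, hT, hf⟩ := peel hM hM2 (fun W hW hne =>
      funIn_of_funGraph (G := G) (H := G.induce (M : Set V)) (Function.Embedding.subtype _)
        (fun a b => Iff.rfl) hkM W (fun w hw => by
          simp only [mem_map, mem_univ, true_and]
          exact ⟨⟨w, hW hw⟩, rfl⟩) hne)
    exact ⟨y, (funVertex_le _ _ _).2 ⟨T, hT, hf⟩⟩

/-- If the prime graphs of a hereditary class have functionality at most `k`, then all graphs of
the class have functionality at most `3 k + 2`. In particular bounded functionality of the prime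
graphs implies bounded functionality of the class. -/
theorem result (X : ∀ V : Type, SimpleGraph V → Prop) (hX : Hereditary X) :
    (∀ k : ℕ, (∀ (V : Type) [Fintype V] (G : SimpleGraph V), X V G → IsPrime G →
        funGraph G ≤ k) →
      ∀ (V : Type) [Fintype V] (G : SimpleGraph V), X V G → funGraph G ≤ 3 * k + 2) ∧
    ((∃ k : ℕ, ∀ (V : Type) [Fintype V] (G : SimpleGraph V), X V G → IsPrime G →
        funGraph G ≤ k) →
      ∃ k : ℕ, ∀ (V : Type) [Fintype V] (G : SimpleGraph V), X V G → funGraph G ≤ k) := by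
  have h1 : ∀ k : ℕ, (∀ (V : Type) [Fintype V] (G : SimpleGraph V), X V G → IsPrime G →
        funGraph G ≤ k) →
      ∀ (V : Type) [Fintype V] (G : SimpleGraph V), X V G → funGraph G ≤ 3 * k + 2 := by
    intro k hk V _ G hG
    rw [funGraph_le]
    intro S hS
    have : Nonempty S := hS.to_subtype
    have : Fintype S := Fintype.ofFinite S
    exact vertex hX hk S (G.induce S) (hX _ _ G _ ⟨SimpleGraph.Embedding.induce _⟩ hG)
  refine ⟨h1, ?_⟩
  rintro ⟨k, hk⟩
  exact ⟨3 * k + 2, h1 k hk⟩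

end Pool.Agent.Results.MP_42f001_co.PrimeFunctionality
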